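import Mathlib

namespace Pool.Agent.Results.MP_4a7d17_lc.GameLogic

/-- The three kinds of modality: preference `≤_i`, epistemic `∼_i`, freedom `≈_i`. -/
inductive Kind
  | pref
  | epi
  | act

/-- Formulas of `L_N` over the set `P` of propositional letters. -/
inductive Form (N P : Type) : Type
  | atom : P → Form N P
  | neg : Form N P → Form N P
  | disj : Form N P → Form N P → Form N P
  | dia : Kind → N → Form N P → Form N P

open Form Kind

/-- A general game model: action sets, preferences and a valuation on the set of all strategy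
profiles, and a nonempty set `W` of profiles (the worlds). -/
structure GGM (N P : Type) where
  A : N → Type
  A_nonempty : ∀ i, Nonempty (A i)
  pref : N → (∀ i, A i) → (∀ i, A i) → Prop
  pref_refl : ∀ i σ, pref i σ σ
  pref_trans : ∀ i σ τ υ, pref i σ τ → pref i τ υ → pref i σ υ
  val : P → Set (∀ i, A i)
  W : Set (∀ i, A i)
  W_nonempty : W.Nonempty

variable {N P : Type}

/-- The accessibility relations of a general game model. -/
def GGM.rel (M : GGM N P) : Kind → N → (∀ i, M.A i) → (∀ i, M.A i) → Prop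
  | Kind.pref, i, σ, τ => M.pref i σ τ
  | Kind.epi, i, σ, τ => σ i = τ i
  | Kind.act, i, σ, τ => ∀ j, j ≠ i → σ j = τ j

/-- Truth at a world of a general game model. -/
def GGM.sat (M : GGM N P) : Form N P → (∀ i, M.A i) → Prop
  | atom p, σ => σ ∈ M.val p
  | neg φ, σ => ¬ M.sat φ σ
  | disj φ ψ, σ => M.sat φ σ ∨ M.sat ψ σ
  | dia k i φ, σ => ∃ τ ∈ M.W, M.rel k i σ τ ∧ M.sat φ τ

/-- Validity on all general game models. -/
def Valid (φ : Form N P) : Prop := ∀ M : GGM N P, ∀ σ ∈ M.W, M.sat φ σ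

abbrev imp (φ ψ : Form N P) : Form N P := disj (neg φ) ψ

abbrev box (k : Kind) (i : N) (φ : Form N P) : Form N P := neg (dia k i (neg φ))

/-- Propositional evaluation; letters and formulas starting with a diamond are atoms. -/
def ev (v : Form N P → Prop) : Form N P → Prop
  | atom p => v (atom p)
  | neg φ => ¬ ev v φ
  | disj φ ψ => ev v φ ∨ ev v ψ
  | dia k i φ => v (dia k i φ)

/-- Propositional tautologies. -/
def Taut (φ : Form N P) : Prop := ∀ v, ev v φ

/-- The axiom system: propositional tautologies, modus ponens, necessitation, `K` and `Dual` for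
every modality, `T` and `4` for every modality, `B` for the epistemic and the freedom modalities,
`⟨≈_i⟩φ → ⟨∼_j⟩φ` for `i ≠ j`, and, if there are exactly two players, also the converse. -/
inductive Prov : Form N P → Prop
  | taut {φ : Form N P} : Taut φ → Prov φ
  | mp {φ ψ : Form N P} : Prov (imp φ ψ) → Prov φ → Prov ψ
  | nec {φ : Form N P} (k : Kind) (i : N) : Prov φ → Prov (box k i φ)
  | K (k : Kind) (i : N) (φ ψ : Form N P) :
      Prov (imp (box k i (imp φ ψ)) (imp (box k i φ) (box k i ψ)))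
  | dual1 (k : Kind) (i : N) (φ : Form N P) : Prov (imp (dia k i φ) (neg (box k i (neg φ))))
  | dual2 (k : Kind) (i : N) (φ : Form N P) : Prov (imp (neg (box k i (neg φ))) (dia k i φ))
  | T (k : Kind) (i : N) (φ : Form N P) : Prov (imp φ (dia k i φ))
  | four (k : Kind) (i : N) (φ : Form N P) : Prov (imp (dia k i (dia k i φ)) (dia k i φ))
  | B_epi (i : N) (φ : Form N P) : Prov (imp φ (box epi i (dia epi i φ)))
  | B_act (i : N) (φ : Form N P) : Prov (imp φ (box act i (dia act i φ)))
  | incl (i j : N) (h : i ≠ j) (φ : Form N P) : Prov (imp (dia act i φ) (dia epi j φ))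
  | two (h : Nat.card N = 2) (i j : N) (hij : i ≠ j) (φ : Form N P) :
      Prov (imp (dia epi j φ) (dia act i φ))

/-! ### Soundness -/

lemma ev_sat (M : GGM N P) (σ : ∀ i, M.A i) (φ : Form N P) :
    ev (fun ψ => M.sat ψ σ) φ ↔ M.sat φ σ := by
  induction φ with
  | atom p => rfl
  | neg φ ih => simp only [ev, GGM.sat, ih]
  | disj φ ψ ih1 ih2 => simp only [ev, GGM.sat, ih1, ih2]
  | dia k i φ _ => rfl

lemma sat_imp (M : GGM N P) (σ : ∀ i, M.A i) (φ ψ : Form N P) :
    M.sat (imp φ ψ) σ ↔ (M.sat φ σ → M.sat ψ σ) := by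
  simp only [imp, GGM.sat]
  tauto

lemma sat_box (M : GGM N P) (σ : ∀ i, M.A i) (k : Kind) (i : N) (φ : Form N P) :
    M.sat (box k i φ) σ ↔ ∀ τ ∈ M.W, M.rel k i σ τ → M.sat φ τ := by
  simp only [box, GGM.sat]
  push Not
  rfl

lemma rel_refl (M : GGM N P) (k : Kind) (i : N) (σ : ∀ i, M.A i) : M.rel k i σ σ := by
  cases k
  · exact M.pref_refl i σ
  · exact rfl
  · intro j _
    rfl

lemma rel_trans (M : GGM N P) (k : Kind) (i : N) {σ τ υ : ∀ i, M.A i} (h1 : M.rel k i σ τ)
    (h2 : M.rel k i τ υ) : M.rel k i σ υ := by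
  cases k
  · exact M.pref_trans i σ τ υ h1 h2
  · exact Eq.trans h1 h2
  · intro j hj
    exact (h1 j hj).trans (h2 j hj)

lemma sound {φ : Form N P} (h : Prov φ) : Valid φ := by
  induction h with
  | taut h =>
    intro M σ _
    exact (ev_sat M σ _).1 (h _)
  | mp _ _ ih1 ih2 =>
    intro M σ hσ
    exact (sat_imp M σ _ _).1 (ih1 M σ hσ) (ih2 M σ hσ)
  | nec k i _ ih =>
    intro M σ _
    rw [sat_box]
    intro τ hτ _
    exact ih M τ hτ
  | K k i φ ψ =>
    intro M σ _
    rw [sat_imp, sat_imp, sat_box, sat_box, sat_box]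
    intro h1 h2 τ hτ h3
    exact (sat_imp M τ _ _).1 (h1 τ hτ h3) (h2 τ hτ h3)
  | dual1 k i φ =>
    intro M σ _
    rw [sat_imp]
    rintro ⟨τ, hτ, h1, h2⟩ h3
    rw [sat_box] at h3
    exact h3 τ hτ h1 h2
  | dual2 k i φ =>
    intro M σ _
    rw [sat_imp]
    intro h3
    by_contra h4
    apply h3
    rw [sat_box]
    intro τ hτ h1 h2
    exact h4 ⟨τ, hτ, h1, h2⟩
  | T k i φ =>
    intro M σ hσ
    rw [sat_imp]
    intro h
    exact ⟨σ, hσ, rel_refl M k i σ, h⟩
  | four k i φ =>
    intro M σ hσ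
    rw [sat_imp]
    rintro ⟨τ, hτ, h1, υ, hυ, h2, h3⟩
    exact ⟨υ, hυ, rel_trans M k i h1 h2, h3⟩
  | B_epi i φ =>
    intro M σ hσ
    rw [sat_imp, sat_box]
    intro h τ hτ h1
    exact ⟨σ, hσ, Eq.symm h1, h⟩
  | B_act i φ =>
    intro M σ hσ
    rw [sat_imp, sat_box]
    intro h τ hτ h1
    exact ⟨σ, hσ, fun j hj => (h1 j hj).symm, h⟩
  | incl i j h φ =>
    intro M σ hσ
    rw [sat_imp]
    rintro ⟨τ, hτ, h1, h2⟩
    exact ⟨τ, hτ, h1 j h.symm, h2⟩
  | two h i j hij φ =>
    intro M σ hσ
    rw [sat_imp]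
    rintro ⟨τ, hτ, h1, h2⟩
    refine ⟨τ, hτ, ?_, h2⟩
    intro l hl
    have : l = j := by
      by_contra hlj
      have : Finite N := Nat.finite_of_card_ne_zero (by omega)
      have := Fintype.ofFinite N
      classical
      have h3 : ({i, j, l} : Finset N).card ≤ Fintype.card N := Finset.card_le_univ _
      rw [Finset.card_insert_of_notMem (by simp [hij, Ne.symm hl]),
        Finset.card_insert_of_notMem (by simpa using Ne.symm hlj), Finset.card_singleton] at h3
      rw [Nat.card_eq_fintype_card] at h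
      omega
    rw [this]
    exact h1

/-! ### Derivations from sets of formulas -/

lemma prov_one {a b : Form N P} (ha : Prov a) (h : ∀ v, ev v a → ev v b) : Prov b := by
  refine Prov.mp (Prov.taut (fun v => ?_)) ha
  simp only [imp, ev]
  by_cases hv : ev v a
  · exact Or.inr (h v hv)
  · exact Or.inl hv

lemma prov_two {a b c : Form N P} (ha : Prov a) (hb : Prov b)
    (h : ∀ v, ev v a → ev v b → ev v c) : Prov c := by
  have h1 : Prov (imp b c) := prov_one ha (fun v hv => by
    simp only [imp, ev]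
    by_cases hv' : ev v b
    · exact Or.inr (h v hv hv')
    · exact Or.inl hv')
  exact Prov.mp h1 hb

/-- Derivability from a set of formulas. -/
def Der (Γ : Set (Form N P)) (χ : Form N P) : Prop :=
  ∃ L : List (Form N P), (∀ ψ ∈ L, ψ ∈ Γ) ∧ Prov (L.foldr imp χ)

lemma ev_foldr (v : Form N P → Prop) (L : List (Form N P)) (χ : Form N P) :
    ev v (L.foldr imp χ) ↔ ((∀ ψ ∈ L, ev v ψ) → ev v χ) := by
  induction L with
  | nil => simp
  | cons a L ih =>
    simp only [List.foldr_cons, List.forall_mem_cons]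
    show (¬ ev v a ∨ ev v (L.foldr imp χ)) ↔ _
    rw [ih]
    tauto

lemma der_of_mem {Γ : Set (Form N P)} {χ : Form N P} (h : χ ∈ Γ) : Der Γ χ := by
  refine ⟨[χ], by simpa using h, Prov.taut (fun v => ?_)⟩
  rw [ev_foldr]
  intro h
  exact h χ (by simp)

lemma der_of_prov {Γ : Set (Form N P)} {χ : Form N P} (h : Prov χ) : Der Γ χ :=
  ⟨[], by simp, h⟩

lemma der_two {Γ : Set (Form N P)} {a b c : Form N P} (ha : Der Γ a) (hb : Der Γ b)
    (h : ∀ v, ev v a → ev v b → ev v c) : Der Γ c := by
  obtain ⟨L1, h1, h2⟩ := ha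
  obtain ⟨L2, h3, h4⟩ := hb
  refine ⟨L1 ++ L2, ?_, prov_two h2 h4 (fun v hv1 hv2 => ?_)⟩
  · intro ψ hψ
    rcases List.mem_append.1 hψ with h5 | h5
    · exact h1 ψ h5
    · exact h3 ψ h5
  · rw [ev_foldr] at *
    intro h5
    exact h v (hv1 (fun ψ hψ => h5 ψ (by simp [hψ]))) (hv2 (fun ψ hψ => h5 ψ (by simp [hψ])))

lemma der_one {Γ : Set (Form N P)} {a c : Form N P} (ha : Der Γ a)
    (h : ∀ v, ev v a → ev v c) : Der Γ c := der_two ha ha (fun v h1 _ => h v h1)

lemma der_insert {Γ : Set (Form N P)} {φ χ : Form N P} (h : Der (insert φ Γ) χ) :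
    Der Γ (imp φ χ) := by
  classical
  obtain ⟨L, h1, h2⟩ := h
  refine ⟨L.filter (fun ψ => ψ ≠ φ), ?_, prov_one h2 (fun v hv => ?_)⟩
  · intro ψ hψ
    rw [List.mem_filter] at hψ
    rcases h1 ψ hψ.1 with h3 | h3
    · exact absurd h3 (by simpa using hψ.2)
    · exact h3
  · rw [ev_foldr] at *
    intro h3
    simp only [imp, ev]
    by_cases h4 : ev v φ
    · right
      apply hv
      intro ψ hψ
      by_cases h5 : ψ = φ
      · rw [h5]
        exact h4
      · exact h3 ψ (List.mem_filter.2 ⟨hψ, by simpa using h5⟩)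
    · exact Or.inl h4

def Con (Γ : Set (Form N P)) : Prop := ∀ χ, ¬ (Der Γ χ ∧ Der Γ (neg χ))

lemma not_con_insert {Γ : Set (Form N P)} {φ : Form N P} (h : ¬ Con (insert φ Γ)) :
    Der Γ (neg φ) := by
  unfold Con at h
  push Not at h
  obtain ⟨χ, h1, h2⟩ := h
  refine der_two (der_insert h1) (der_insert h2) (fun v h3 h4 => ?_)
  simp only [imp, ev] at *
  tauto

/-- Maximal consistent sets. -/
def MCS (N P : Type) : Type :=
  {Γ : Set (Form N P) // Con Γ ∧ ∀ φ, φ ∈ Γ ∨ neg φ ∈ Γ}

lemma chain_list {c : Set (Set (Form N P))} (hc : IsChain (· ⊆ ·) c) (hne : c.Nonempty)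
    (L : List (Form N P)) (hL : ∀ ψ ∈ L, ψ ∈ ⋃₀ c) : ∃ Γ ∈ c, ∀ ψ ∈ L, ψ ∈ Γ := by
  induction L with
  | nil =>
    obtain ⟨Γ, hΓ⟩ := hne
    exact ⟨Γ, hΓ, by simp⟩
  | cons a L ih =>
    obtain ⟨Γ, hΓ, h1⟩ := ih (fun ψ hψ => hL ψ (by simp [hψ]))
    obtain ⟨Δ, hΔ, h2⟩ := hL a (by simp)
    rcases hc.total hΓ hΔ with h | h
    · refine ⟨Δ, hΔ, ?_⟩
      intro ψ hψ
      rcases List.mem_cons.1 hψ with rfl | h3
      · exact h2
      · exact h (h1 ψ h3)
    · refine ⟨Γ, hΓ, ?_⟩
      intro ψ hψ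
      rcases List.mem_cons.1 hψ with rfl | h3
      · exact h h2
      · exact h1 ψ h3

lemma lindenbaum {Γ : Set (Form N P)} (h : Con Γ) : ∃ Δ : MCS N P, Γ ⊆ Δ.1 := by
  obtain ⟨Δ, hΓΔ, hmax⟩ := zorn_subset_nonempty {Δ : Set (Form N P) | Con Δ} (by
    intro c hc hchain hne
    refine ⟨⋃₀ c, ?_, fun s hs => Set.subset_sUnion_of_mem hs⟩
    intro χ ⟨⟨L1, h1, h2⟩, L2, h3, h4⟩
    obtain ⟨Θ, hΘ, h5⟩ := chain_list hchain hne (L1 ++ L2) (by
      intro ψ hψ
      rcases List.mem_append.1 hψ with h6 | h6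
      · exact h1 ψ h6
      · exact h3 ψ h6)
    exact hc hΘ χ ⟨⟨L1, fun ψ hψ => h5 ψ (by simp [hψ]), h2⟩,
      ⟨L2, fun ψ hψ => h5 ψ (by simp [hψ]), h4⟩⟩) Γ h
  have hcon : Con Δ := hmax.prop
  refine ⟨⟨Δ, hcon, ?_⟩, hΓΔ⟩
  intro φ
  by_contra hcon2
  push Not at hcon2
  obtain ⟨h1, h2⟩ := hcon2
  have key : ∀ ψ, ψ ∉ Δ → Der Δ (neg ψ) := by
    intro ψ hψ
    apply not_con_insert
    intro h3
    have h4 : Δ = insert ψ Δ := hmax.eq_of_subset h3 (Set.subset_insert _ _)
    apply hψ
    rw [h4]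
    exact Set.mem_insert _ _
  exact hcon (neg φ) ⟨key φ h1, key (neg φ) h2⟩

lemma mcs_der (Γ : MCS N P) {φ : Form N P} (h : Der Γ.1 φ) : φ ∈ Γ.1 := by
  rcases Γ.2.2 φ with h1 | h1
  · exact h1
  · exact absurd ⟨h, der_of_mem h1⟩ (Γ.2.1 φ)

lemma mcs_prov (Γ : MCS N P) {a b : Form N P} (h : Prov (imp a b)) (ha : a ∈ Γ.1) : b ∈ Γ.1 :=
  mcs_der Γ (der_two (der_of_prov h) (der_of_mem ha) (fun v h1 h2 => by
    simp only [imp, ev] at *
    tauto))

lemma mcs_neg (Γ : MCS N P) (φ : Form N P) : neg φ ∈ Γ.1 ↔ φ ∉ Γ.1 := by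
  constructor
  · intro h1 h2
    exact Γ.2.1 φ ⟨der_of_mem h2, der_of_mem h1⟩
  · intro h
    exact (Γ.2.2 φ).resolve_left h

lemma mcs_or (Γ : MCS N P) (φ ψ : Form N P) : disj φ ψ ∈ Γ.1 ↔ φ ∈ Γ.1 ∨ ψ ∈ Γ.1 := by
  constructor
  · intro h
    by_contra hcon
    push Not at hcon
    obtain ⟨h1, h2⟩ := hcon
    rw [← mcs_neg] at h1 h2
    have h3 : neg (disj φ ψ) ∈ Γ.1 := mcs_der Γ (der_two (der_of_mem h1) (der_of_mem h2)
      (fun v h4 h5 => by
        simp only [ev] at *
        tauto))
    rw [mcs_neg] at h3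
    exact h3 h
  · rintro (h | h)
    · exact mcs_der Γ (der_one (der_of_mem h) (fun v h4 => by
        simp only [ev] at *
        tauto))
    · exact mcs_der Γ (der_one (der_of_mem h) (fun v h4 => by
        simp only [ev] at *
        tauto))

lemma dia_mono (k : Kind) (i : N) {a b : Form N P} (h : Prov (imp a b)) :
    Prov (imp (dia k i a) (dia k i b)) := by
  have h1 : Prov (imp (neg b) (neg a)) := prov_one h (fun v hv => by
    simp only [imp, ev] at *
    tauto)
  have h2 := Prov.mp (Prov.K k i (neg b) (neg a)) (Prov.nec k i h1)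
  have h3 := prov_two h2 (Prov.dual1 k i a) (c := imp (dia k i a) (neg (box k i (neg b))))
    (fun v h4 h5 => by
      simp only [imp, box, ev] at *
      tauto)
  exact prov_two h3 (Prov.dual2 k i b) (fun v h4 h5 => by
    simp only [imp, box, ev] at *
    tauto)

/-- The canonical relation. -/
def R (k : Kind) (i : N) (Γ Δ : MCS N P) : Prop := ∀ ψ ∈ Δ.1, dia k i ψ ∈ Γ.1

lemma box_foldr (Γ : MCS N P) (k : Kind) (i : N) (L : List (Form N P)) (χ : Form N P)
    (hL : ∀ ψ ∈ L, box k i ψ ∈ Γ.1) (h : box k i (L.foldr imp χ) ∈ Γ.1) : box k i χ ∈ Γ.1 := by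
  induction L with
  | nil => exact h
  | cons a L ih =>
    apply ih (fun ψ hψ => hL ψ (by simp [hψ]))
    have h1 : imp (box k i a) (box k i (L.foldr imp χ)) ∈ Γ.1 :=
      mcs_prov Γ (Prov.K k i a (L.foldr imp χ)) h
    exact mcs_der Γ (der_two (der_of_mem h1) (der_of_mem (hL a (by simp))) (fun v h2 h3 => by
      simp only [imp, box, ev] at *
      tauto))

lemma exists_succ (Γ : MCS N P) (k : Kind) (i : N) {φ : Form N P} (h : dia k i φ ∈ Γ.1) :
    ∃ Δ : MCS N P, φ ∈ Δ.1 ∧ R k i Γ Δ := by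
  have hcon : Con (insert φ {ψ | box k i ψ ∈ Γ.1}) := by
    by_contra hcon
    obtain ⟨L, h1, h2⟩ := not_con_insert hcon
    have h3 : box k i (L.foldr imp (neg φ)) ∈ Γ.1 := mcs_der Γ (der_of_prov (Prov.nec k i h2))
    have h4 := box_foldr Γ k i L (neg φ) h1 h3
    have h5 := mcs_prov Γ (Prov.dual1 k i φ) h
    rw [mcs_neg] at h5
    exact h5 h4
  obtain ⟨Δ, hΔ⟩ := lindenbaum hcon
  refine ⟨Δ, hΔ (Set.mem_insert _ _), ?_⟩
  intro ψ hψ
  by_contra hd
  have h1 : box k i (neg ψ) ∈ Γ.1 := by
    rw [mcs_neg]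
    intro h2
    apply hd
    exact mcs_prov Γ (dia_mono k i (Prov.taut (fun v => by
      simp only [imp, ev]
      tauto))) h2
  have h2 : neg ψ ∈ Δ.1 := hΔ (Set.mem_insert_of_mem _ h1)
  rw [mcs_neg] at h2
  exact h2 hψ

lemma R_refl (k : Kind) (i : N) (Γ : MCS N P) : R k i Γ Γ := fun ψ hψ =>
  mcs_prov Γ (Prov.T k i ψ) hψ

lemma R_trans (k : Kind) (i : N) {Γ Δ Θ : MCS N P} (h1 : R k i Γ Δ) (h2 : R k i Δ Θ) :
    R k i Γ Θ := fun ψ hψ => mcs_prov Γ (Prov.four k i ψ) (h1 _ (h2 ψ hψ))

lemma R_symm_aux (k : Kind) (i : N)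
    (hB : ∀ φ : Form N P, Prov (imp φ (box k i (dia k i φ)))) {Γ Δ : MCS N P}
    (h : R k i Γ Δ) : R k i Δ Γ := by
  intro ψ hψ
  by_contra hd
  rw [← mcs_neg] at hd
  have h1 := h _ hd
  have h2 := mcs_prov Γ (hB ψ) hψ
  rw [mcs_neg] at h2
  exact h2 h1

lemma R_incl {i j : N} (hij : i ≠ j) {Γ Δ : MCS N P} (h : R act i Γ Δ) : R epi j Γ Δ :=
  fun ψ hψ => mcs_prov Γ (Prov.incl i j hij ψ) (h ψ hψ)

lemma R_two (h2 : Nat.card N = 2) {i j : N} (hij : i ≠ j) {Γ Δ : MCS N P} (h : R epi j Γ Δ) :
    R act i Γ Δ := fun ψ hψ => mcs_prov Γ (Prov.two h2 i j hij ψ) (h ψ hψ)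

/-! ### Unravelling -/

/-- Labels of steps: `(true, j)` for `∼_j` and `(false, i)` for `≈_i`. -/
abbrev Lab (N : Type) := Bool × N

/-- The canonical relation of a label. -/
def RL (r : Lab N) (Γ Δ : MCS N P) : Prop := if r.1 then R epi r.2 Γ Δ else R act r.2 Γ Δ

/-- Last world of a path. -/
def lastW (w : MCS N P) : List (Lab N × MCS N P) → MCS N P
  | [] => w
  | x :: _ => x.2

/-- A list of steps (latest first) which is a path in the canonical model. -/
def ValidP (w : MCS N P) : List (Lab N × MCS N P) → Prop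
  | [] => True
  | x :: l => RL x.1 (lastW w l) x.2 ∧ ValidP w l

/-- Labels whose relation is contained in `∼_j`. -/
def inL (j : N) (r : Lab N) : Prop := (r.1 = true ∧ r.2 = j) ∨ (r.1 = false ∧ r.2 ≠ j)

open Classical in
/-- Remove the latest steps with labels belonging to all `j ∈ J`. -/
noncomputable def strip (J : Set N) (l : List (Lab N × MCS N P)) : List (Lab N × MCS N P) :=
  l.dropWhile (fun x => decide (∀ j ∈ J, inL j x.1))

lemma strip_nil (J : Set N) : strip J ([] : List (Lab N × MCS N P)) = [] := rfl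

lemma strip_cons_of (J : Set N) (x : Lab N × MCS N P) (l : List (Lab N × MCS N P))
    (h : ∀ j ∈ J, inL j x.1) : strip J (x :: l) = strip J l := by
  unfold strip
  rw [List.dropWhile_cons_of_pos (by simpa using h)]

lemma strip_cons_not (J : Set N) (x : Lab N × MCS N P) (l : List (Lab N × MCS N P))
    (h : ¬ ∀ j ∈ J, inL j x.1) : strip J (x :: l) = x :: l := by
  unfold strip
  rw [List.dropWhile_cons_of_neg (by simpa using h)]

lemma strip_length (J : Set N) (l : List (Lab N × MCS N P)) : (strip J l).length ≤ l.length := by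
  induction l with
  | nil => simp [strip_nil]
  | cons x l ih =>
    by_cases h : ∀ j ∈ J, inL j x.1
    · rw [strip_cons_of J x l h]
      simp only [List.length_cons]
      omega
    · rw [strip_cons_not J x l h]

/-- `strip J l` of full length is `l`. -/
lemma strip_eq_of_length (J : Set N) (l : List (Lab N × MCS N P))
    (h : l.length ≤ (strip J l).length) : strip J l = l := by
  cases l with
  | nil => rfl
  | cons x l =>
    by_cases h1 : ∀ j ∈ J, inL j x.1
    · rw [strip_cons_of J x l h1] at h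
      have := strip_length J l
      simp only [List.length_cons] at h
      omega
    · exact strip_cons_not J x l h1

lemma strip_strip (J K : Set N) (hKJ : K ⊆ J) (l : List (Lab N × MCS N P)) :
    strip K (strip J l) = strip K l := by
  induction l with
  | nil => rfl
  | cons x l ih =>
    by_cases h : ∀ j ∈ J, inL j x.1
    · rw [strip_cons_of J x l h, ih, strip_cons_of K x l (fun j hj => h j (hKJ hj))]
    · rw [strip_cons_not J x l h]

/-- Intersecting the relations. -/
lemma strip_inter (J : Set N) (hJ : J.Nonempty) : ∀ (n : ℕ) (l1 l2 : List (Lab N × MCS N P)),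
    l1.length + l2.length ≤ n → (∀ j ∈ J, strip {j} l1 = strip {j} l2) →
    strip J l1 = strip J l2 := by
  intro n
  induction n with
  | zero =>
    intro l1 l2 h _
    have h1 : l1 = [] := List.length_eq_zero_iff.1 (by omega)
    have h2 : l2 = [] := List.length_eq_zero_iff.1 (by omega)
    rw [h1, h2]
  | succ n ih =>
    have main : ∀ l1 l2 : List (Lab N × MCS N P), l1.length + l2.length ≤ n + 1 →
        (∀ j ∈ J, strip {j} l1 = strip {j} l2) → l2.length ≤ l1.length → l1 ≠ l2 →
        strip J l1 = strip J l2 := by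
      intro l1 l2 hlen h hle hne
      cases l1 with
      | nil =>
        have h2 : l2 = [] := List.length_eq_zero_iff.1 (by simpa using hle)
        rw [h2]
      | cons x l =>
        have hx : ∀ j ∈ J, inL j x.1 := by
          intro j hj
          by_contra hcon
          have h1 : strip {j} (x :: l) = x :: l := strip_cons_not _ _ _ (by simpa using hcon)
          have h2 := h j hj
          rw [h1] at h2
          have h3 := strip_length {j} l2
          rw [← h2] at h3
          have h4 : strip {j} l2 = l2 := strip_eq_of_length _ _ (by rw [← h2]; exact hle)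
          rw [h4] at h2
          exact hne h2
        rw [strip_cons_of J x l hx]
        apply ih
        · simp only [List.length_cons] at hlen
          omega
        · intro j hj
          rw [← h j hj, strip_cons_of {j} x l (by simpa using hx j hj)]
    intro l1 l2 hlen h
    by_cases heq : l1 = l2
    · rw [heq]
    · rcases le_total l2.length l1.length with hle | hle
      · exact main l1 l2 hlen h hle heq
      · exact (main l2 l1 (by omega) (fun j hj => (h j hj).symm) hle (Ne.symm heq)).symm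

/-- No label belongs to all players, when there are at least two of them. -/
lemma strip_univ (hN : ∀ k : N, ∃ j : N, j ≠ k) (l : List (Lab N × MCS N P)) :
    strip Set.univ l = l := by
  cases l with
  | nil => rfl
  | cons x l =>
    apply strip_cons_not
    intro h
    rcases hb : x.1.1 with _ | _
    · rcases h x.1.2 (Set.mem_univ _) with h1 | h1
      · rw [hb] at h1
        simp at h1
      · exact h1.2 rfl
    · obtain ⟨j, hj⟩ := hN x.1.2
      rcases h j (Set.mem_univ _) with h1 | h1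
      · exact hj h1.2.symm
      · rw [hb] at h1
        simp at h1

/-- A relation containing the steps with the stripped labels relates the ends. -/
lemma rel_strip (J : Set N) (Q : MCS N P → MCS N P → Prop) (hrefl : ∀ Γ, Q Γ Γ)
    (htrans : ∀ Γ Δ Θ, Q Γ Δ → Q Δ Θ → Q Γ Θ)
    (hQ : ∀ r : Lab N, (∀ j ∈ J, inL j r) → ∀ Γ Δ : MCS N P, RL r Γ Δ → Q Γ Δ)
    (w : MCS N P) (l : List (Lab N × MCS N P)) (hv : ValidP w l) :
    Q (lastW w (strip J l)) (lastW w l) := by
  induction l with
  | nil => exact hrefl _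
  | cons x l ih =>
    by_cases h : ∀ j ∈ J, inL j x.1
    · rw [strip_cons_of J x l h]
      exact htrans _ _ _ (ih hv.2) (hQ x.1 h _ _ hv.1)
    · rw [strip_cons_not J x l h]
      exact hrefl _

/-- Worlds of the unravelled model. -/
def Wt (N P : Type) : Type := {p : MCS N P × List (Lab N × MCS N P) // ValidP p.1 p.2}

def lst (p : Wt N P) : MCS N P := lastW p.1.1 p.1.2

/-- The relation belonging to a set of players. -/
def rJ (J : Set N) : Setoid (Wt N P) where
  r p q := p.1.1 = q.1.1 ∧ strip J p.1.2 = strip J q.1.2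
  iseqv := ⟨fun _ => ⟨rfl, rfl⟩, fun h => ⟨h.1.symm, h.2.symm⟩,
    fun h h' => ⟨h.1.trans h'.1, h.2.trans h'.2⟩⟩

lemma rJ_iff {J : Set N} (hJ : J.Nonempty) (p q : Wt N P) :
    rJ J p q ↔ ∀ j ∈ J, rJ {j} p q := by
  constructor
  · rintro ⟨h1, h2⟩ j hj
    refine ⟨h1, ?_⟩
    rw [← strip_strip J {j} (by simpa using hj), h2, strip_strip J {j} (by simpa using hj)]
  · intro h
    obtain ⟨j0, hj0⟩ := hJ
    exact ⟨(h j0 hj0).1, strip_inter J ⟨j0, hj0⟩ _ _ _ le_rfl (fun j hj => (h j hj).2)⟩

lemma rJ_rel (J : Set N) (Q : MCS N P → MCS N P → Prop) (hrefl : ∀ Γ, Q Γ Γ)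
    (hsymm : ∀ Γ Δ, Q Γ Δ → Q Δ Γ) (htrans : ∀ Γ Δ Θ, Q Γ Δ → Q Δ Θ → Q Γ Θ)
    (hQ : ∀ r : Lab N, (∀ j ∈ J, inL j r) → ∀ Γ Δ : MCS N P, RL r Γ Δ → Q Γ Δ)
    {p q : Wt N P} (h : rJ J p q) : Q (lst p) (lst q) := by
  obtain ⟨h1, h2⟩ := h
  have e1 := rel_strip J Q hrefl htrans hQ p.1.1 p.1.2 p.2
  have e2 := rel_strip J Q hrefl htrans hQ q.1.1 q.1.2 q.2
  rw [← h1, ← h2] at e2
  exact htrans _ _ _ (hsymm _ _ e1) (by rw [h1] at e2 ⊢; exact e2)

/-- The embedding of the unravelled model into a product. -/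
def emb (p : Wt N P) : ∀ i : N, Quotient (rJ (P := P) {i}) := fun i => Quotient.mk _ p

lemma emb_eq_iff (p q : Wt N P) (i : N) : emb p i = emb q i ↔ rJ {i} p q :=
  ⟨fun h => Quotient.exact h, fun h => Quotient.sound h⟩

lemma emb_inj (hN : ∀ k : N, ∃ j : N, j ≠ k) (hne : Nonempty N) {p q : Wt N P}
    (h : emb p = emb q) : p = q := by
  have h1 : rJ Set.univ p q := by
    rw [rJ_iff ⟨Classical.choice hne, Set.mem_univ _⟩]
    intro j _
    rw [← emb_eq_iff, h]
  obtain ⟨h2, h3⟩ := h1
  rw [strip_univ hN, strip_univ hN] at h3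
  exact Subtype.ext (Prod.ext h2 h3)

lemma exists_mcs_of_not_prov {φ : Form N P} (h : ¬ Prov φ) : ∃ Γ : MCS N P, φ ∉ Γ.1 := by
  have hcon : Con (insert (neg φ) (∅ : Set (Form N P))) := by
    by_contra hcon
    obtain ⟨L, h1, h2⟩ := not_con_insert hcon
    have : L = [] := by
      cases L with
      | nil => rfl
      | cons a L => exact absurd (h1 a (by simp)) (by simp)
    subst this
    apply h
    exact prov_one h2 (fun v hv => by
      simp only [List.foldr_nil, ev] at hv
      tauto)
  obtain ⟨Δ, hΔ⟩ := lindenbaum hcon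
  refine ⟨Δ, ?_⟩
  rw [← mcs_neg]
  exact hΔ (Set.mem_insert _ _)

/-- The general game model obtained from the canonical model by unravelling. -/
def canM (N P : Type) [hw : Nonempty (Wt N P)] : GGM N P where
  A := fun i => Quotient (rJ (P := P) {i})
  A_nonempty := fun i => hw.map (Quotient.mk _)
  pref := fun i σ τ => σ = τ ∨ ∃ p q : Wt N P, σ = emb p ∧ τ = emb q ∧
    ∀ (p' q' : Wt N P), σ = emb p' → τ = emb q' → R pref i (lst p') (lst q')
  pref_refl := fun i σ => Or.inl rfl
  pref_trans := by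
    rintro i σ τ υ (rfl | ⟨p, q, h1, h2, h3⟩) h'
    · exact h'
    · rcases h' with rfl | ⟨q', r, h4, h5, h6⟩
      · exact Or.inr ⟨p, q, h1, h2, h3⟩
      · exact Or.inr ⟨p, r, h1, h5, fun p' r' h7 h8 =>
          R_trans pref i (h3 p' q h7 h2) (h6 q r' h2 h8)⟩
  val := fun x => {σ | ∃ p : Wt N P, σ = emb p ∧ atom x ∈ (lst p).1}
  W := Set.range emb
  W_nonempty := by
    obtain ⟨p⟩ := hw
    exact ⟨emb p, p, rfl⟩

lemma truth [Finite N] (hN : 2 ≤ Nat.card N) [hw : Nonempty (Wt N P)] (φ : Form N P) :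
    ∀ p : Wt N P, (canM N P).sat φ (emb p) ↔ φ ∈ (lst p).1 := by
  have hN1 : ∀ k : N, ∃ j : N, j ≠ k := by
    intro k
    have : Nontrivial N := by
      rw [← Finite.one_lt_card_iff_nontrivial]
      omega
    exact exists_ne k
  have hN0 : Nonempty N := by
    have := Finite.card_pos_iff (α := N)
    exact this.1 (by omega)
  induction φ with
  | atom x =>
    intro p
    constructor
    · rintro ⟨q, h1, h2⟩
      rw [emb_inj hN1 hN0 h1]
      exact h2
    · intro h
      exact ⟨p, rfl, h⟩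
  | neg φ ih =>
    intro p
    rw [mcs_neg, ← ih p]
    rfl
  | disj φ ψ ih1 ih2 =>
    intro p
    rw [mcs_or, ← ih1 p, ← ih2 p]
    rfl
  | dia k i φ ih =>
    intro p
    constructor
    · rintro ⟨_, ⟨q, rfl⟩, h1, h2⟩
      rw [ih] at h2
      have key : R k i (lst p) (lst q) := by
        cases k with
        | pref =>
          rcases h1 with h1 | ⟨_, _, _, _, h3⟩
          · rw [emb_inj hN1 hN0 h1]
            exact R_refl _ _ _
          · exact h3 p q rfl rfl
        | epi =>
          have h3 : rJ {i} p q := (emb_eq_iff p q i).1 h1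
          refine rJ_rel {i} (R epi i) (R_refl _ _) (fun _ _ => R_symm_aux epi i (Prov.B_epi i))
            (fun _ _ _ => R_trans _ _) ?_ h3
          intro r hr Γ Δ hΓ
          rcases hr i rfl with ⟨h4, h5⟩ | ⟨h4, h5⟩
          · unfold RL at hΓ
            rw [if_pos h4, h5] at hΓ
            exact hΓ
          · unfold RL at hΓ
            rw [if_neg (by simp [h4])] at hΓ
            exact R_incl h5 hΓ
        | act =>
          have hJ : ({j : N | j ≠ i} : Set N).Nonempty := hN1 i
          have h3 : rJ {j : N | j ≠ i} p q := by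
            rw [rJ_iff hJ]
            intro j hj
            exact (emb_eq_iff p q j).1 (h1 j hj)
          refine rJ_rel {j : N | j ≠ i} (R act i) (R_refl _ _)
            (fun _ _ => R_symm_aux act i (Prov.B_act i)) (fun _ _ _ => R_trans _ _) ?_ h3
          intro r hr Γ Δ hΓ
          rcases hb : r.1 with _ | _
          · have h4 : r.2 = i := by
              by_contra h5
              rcases hr r.2 h5 with h6 | h6
              · rw [hb] at h6
                simp at h6
              · exact h6.2 rfl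
            unfold RL at hΓ
            rw [if_neg (by simp [hb]), h4] at hΓ
            exact hΓ
          · have h4 : ∀ j, j ≠ i → r.2 = j := by
              intro j hj
              rcases hr j hj with h6 | h6
              · exact h6.2
              · rw [hb] at h6
                simp at h6
            obtain ⟨j0, hj0⟩ := hN1 i
            have h5 : r.2 ≠ i := by
              rw [h4 j0 hj0]
              exact hj0
            have hcard : Nat.card N = 2 := by
              have := Fintype.ofFinite N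
              classical
              have h6 : (Finset.univ : Finset N) ⊆ {i, r.2} := by
                intro j _
                by_cases hj : j = i
                · simp [hj]
                · simp [h4 j hj]
              have h7 := Finset.card_le_card h6
              have h8 : ({i, r.2} : Finset N).card ≤ 2 := Finset.card_le_two
              rw [Finset.card_univ] at h7
              rw [Nat.card_eq_fintype_card] at hN ⊢
              omega
            unfold RL at hΓ
            rw [if_pos hb] at hΓ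
            exact R_two hcard (Ne.symm h5) hΓ
      exact key φ h2
    · intro h
      obtain ⟨Δ, hΔ, hR⟩ := exists_succ (lst p) k i h
      cases k with
      | pref =>
        let q : Wt N P := ⟨(Δ, []), trivial⟩
        refine ⟨emb q, ⟨q, rfl⟩, ?_, (ih q).2 hΔ⟩
        refine Or.inr ⟨p, q, rfl, rfl, ?_⟩
        intro p' q' h1 h2
        rw [← emb_inj hN1 hN0 h1, ← emb_inj hN1 hN0 h2]
        exact hR
      | epi =>
        let q : Wt N P := ⟨(p.1.1, ((true, i), Δ) :: p.1.2), ⟨by
          show RL (true, i) (lastW p.1.1 p.1.2) Δ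
          unfold RL
          rw [if_pos rfl]
          exact hR, p.2⟩⟩
        refine ⟨emb q, ⟨q, rfl⟩, ?_, (ih q).2 hΔ⟩
        show emb p i = emb q i
        rw [emb_eq_iff]
        refine ⟨rfl, ?_⟩
        show strip {i} p.1.2 = strip {i} (((true, i), Δ) :: p.1.2)
        rw [strip_cons_of]
        intro j hj
        rw [Set.mem_singleton_iff] at hj
        exact Or.inl ⟨rfl, hj.symm⟩
      | act =>
        let q : Wt N P := ⟨(p.1.1, ((false, i), Δ) :: p.1.2), ⟨by
          show RL (false, i) (lastW p.1.1 p.1.2) Δ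
          unfold RL
          rw [if_neg (by simp)]
          exact hR, p.2⟩⟩
        refine ⟨emb q, ⟨q, rfl⟩, ?_, (ih q).2 hΔ⟩
        intro j hj
        show emb p j = emb q j
        rw [emb_eq_iff]
        refine ⟨rfl, ?_⟩
        show strip {j} p.1.2 = strip {j} (((false, i), Δ) :: p.1.2)
        rw [strip_cons_of]
        intro j' hj'
        rw [Set.mem_singleton_iff] at hj'
        rw [hj']
        exact Or.inr ⟨rfl, Ne.symm hj⟩

/-- **Axiomatization of the logic of general game models.** For every finite set `N` of at least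
two players the formulas valid on all general game models are exactly the theorems of the
axiom system `Prov`. -/
theorem result (N P : Type) [Finite N] (hN : 2 ≤ Nat.card N) (φ : Form N P) :
    Valid φ ↔ Prov φ := by
  constructor
  · intro h
    by_contra hcon
    obtain ⟨Γ, hΓ⟩ := exists_mcs_of_not_prov hcon
    let p : Wt N P := ⟨(Γ, []), trivial⟩
    have : Nonempty (Wt N P) := ⟨p⟩
    have h1 := h (canM N P) (emb p) ⟨p, rfl⟩
    rw [truth hN] at h1
    exact hΓ h1
  · exact sound

end Pool.Agent.Results.MP_4a7d17_lc.GameLogic
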